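import Pool.Agent.Helper13.TW.StB

/-!
# Project TW, module LCO: the two sides of a line
-/

set_option autoImplicit false

namespace Pool.Agent.Helper71.TW

open Set Topology Pool.Agent.Helper13.TR Pool.Agent.Helper13.TW

/-- A path chain between two points outside of a set. -/
private lemma path_chain (hJOI : StJOI) {S : Type} [TopologicalSpace S] (l : Set S) (a b : S)
    (ha : a ∉ l) (hb : b ∉ l) (h : Joined a b) :
    ∃ κ : Ch S 1, κ ∈ Cyc l 1 ∧ bd 0 κ = Finsupp.single (pt b) 1 - Finsupp.single (pt a) 1 := by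
  obtain ⟨r, _, hr⟩ := (hJOI S univ).1 a b ((joinedIn_univ).mpr h)
  refine ⟨r, ?_, hr⟩
  change bd 0 r ∈ cin lᶜ 0
  rw [hr]
  exact Submodule.sub_mem _ ((hJOI S lᶜ).2.2.2.2 b hb) ((hJOI S lᶜ).2.2.2.2 a ha)

/-- Splitting a null chain. -/
private lemma nul_split (hSDA : StSDA) {S : Type} [TopologicalSpace S] (l : Set S) (κ : Ch S 1)
    (hκ : κ ∈ Nul l 1) : ∃ ρ ∈ cin lᶜ 1, bd 0 ρ = bd 0 κ := by
  obtain ⟨ρ, hρ, τ, ⟨β, hβ⟩, hsum⟩ := Submodule.mem_sup.mp hκ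
  refine ⟨ρ, hρ, ?_⟩
  rw [← hsum, map_add, ← hβ, (hSDA S).1 0 β, add_zero]

theorem hLCO (hCYC2 : StCYC2) (hJOI : StJOI) (_hMON : StMON) (hSDA : StSDA) : StLCO := by
  intro S _ _ _ ω hω ψ hψ T hT hab x y hx hy hxy hiff
  obtain ⟨ε, hε, hgen⟩ := hCYC2 S ω hω ψ hψ
  obtain ⟨a, b, ha, hb, haT, hbT, hj⟩ := hab
  set l : Set S := range ψ with hl
  have hnul : ∀ κ : Ch S 1, κ ∈ Nul l 1 → ev T (bd 0 κ) = 0 := by
    intro κ hκ
    obtain ⟨ρ, hρ, he⟩ := nul_split hSDA l κ hκ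
    rw [← he]
    exact (hJOI S lᶜ).2.1 T hT ρ hρ
  have ev1 := fun (U : Set S) (z : S) => (hJOI S lᶜ).2.2.1 U z
  obtain ⟨κ₀, hκ₀, hb₀⟩ := path_chain hJOI l a b ha hb hj
  obtain ⟨m₀, hm₀⟩ := hgen κ₀ hκ₀
  have h1 := hnul _ hm₀
  rw [map_sub, map_sub, map_smul, map_smul, hb₀, map_sub, (ev1 T b).2 hbT, (ev1 T a).1 haT,
    smul_eq_mul] at h1
  have hE : ev T (bd 0 ε) ≠ 0 := by
    intro h0
    rw [h0] at h1
    simp at h1
  obtain ⟨κ, hκ, hbκ⟩ := path_chain hJOI l x y hx hy hxy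
  obtain ⟨m, hm⟩ := hgen κ hκ
  have h2 := hnul _ hm
  have h3 : ev T (bd 0 κ) = 0 := by
    rw [hbκ, map_sub]
    by_cases hxT : x ∈ T
    · rw [(ev1 T y).1 (hiff.mp hxT), (ev1 T x).1 hxT, sub_self]
    · rw [(ev1 T y).2 (fun h => hxT (hiff.mpr h)), (ev1 T x).2 hxT, sub_self]
  rw [map_sub, map_sub, map_smul, map_smul, h3, smul_eq_mul, zero_sub, neg_eq_zero] at h2
  have hm0 : m = 0 := (mul_eq_zero.mp h2).resolve_right hE
  rw [hm0, zero_smul, sub_zero] at hm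
  obtain ⟨ρ, hρ, he⟩ := nul_split hSDA l κ hm
  set T' : Set S := {z | JoinedIn lᶜ x z} with hT'
  have hsat : ∀ a b : S, JoinedIn lᶜ a b → (a ∈ T' ↔ b ∈ T') := by
    intro a b hab
    exact ⟨fun h => h.trans hab, fun h => h.trans hab.symm⟩
  have h4 := (hJOI S lᶜ).2.1 T' hsat ρ hρ
  have hxT' : x ∈ T' := JoinedIn.refl hx
  by_contra hcon
  have hyT' : y ∉ T' := hcon
  rw [he, hbκ, map_sub, (ev1 T' y).2 hyT', (ev1 T' x).1 hxT'] at h4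
  norm_num at h4

end Pool.Agent.Helper71.TW
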